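import Pool.Agent.Helper35.HSF.StA

/-!
# Project HSF (MP_925021_gt), module ACN: all sets where `⟨g,a⟩ > 0` are connected
-/

set_option autoImplicit false

namespace Helper78.HSF

open Helper35.HSF Helper35.MS Helper35.PI Helper35.PI2 Helper32.CL
open scoped ContDiff Manifold Topology
open Set Filter

/-- For unit vectors `u ≠ -v`: `⟨u, v + u⟩ > 0`. -/
private theorem unit_pos {N : ℕ} (u v : EE N) (hu : ‖u‖ = 1) (hv : ‖v‖ = 1) (h : u ≠ -v) :
    0 < (inner ℝ u v : ℝ) + 1 := by
  have h1 : (0 : ℝ) < ‖u + v‖ ^ 2 := by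
    have h2 : u + v ≠ 0 := fun h0 => h (eq_neg_of_add_eq_zero_left h0)
    positivity
  rw [norm_add_sq_real, hu, hv] at h1
  linarith

private theorem unit_pos1 {N : ℕ} (u v : EE N) (hu : ‖u‖ = 1) (hv : ‖v‖ = 1) (h : v ≠ -u) :
    0 < (inner ℝ u (u + v) : ℝ) := by
  have h1 := unit_pos v u hv hu h
  rw [inner_add_right, real_inner_self_eq_norm_sq, hu, real_inner_comm]
  linarith

private theorem unit_pos2 {N : ℕ} (u v : EE N) (hu : ‖u‖ = 1) (hv : ‖v‖ = 1) (h : v ≠ -u) :
    0 < (inner ℝ v (u + v) : ℝ) := by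
  have h1 := unit_pos v u hv hu h
  rw [inner_add_right, real_inner_self_eq_norm_sq, hv]
  linarith

theorem hACN (hAFC : StAFC) (hALC : StALC) : StACN := by
  intro n N hn M _ _ _ _ _ g hg hg1 hfin hLPr
  have : LocallyConnectedSpace M := ChartedSpace.locallyConnectedSpace (EE n) M
  have hopen : ∀ a : EE N, IsOpen {y | 0 < (inner ℝ (g y) a : ℝ)} := fun a =>
    isOpen_lt continuous_const (hg.inner continuous_const)
  have hA := hALC n N M g hg hLPr
  -- local claim
  have hloc : ∀ x x' : M, g x' ≠ -g x → ∀ x'' ∈ connectedComponentIn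
      {y | 0 < (inner ℝ (g y) (g x + g x') : ℝ)} x',
      g x'' ≠ -g x ∧ (x'' ∈ connectedComponentIn {y | 0 < (inner ℝ (g y) (g x + g x'') : ℝ)} x ↔
        x' ∈ connectedComponentIn {y | 0 < (inner ℝ (g y) (g x + g x') : ℝ)} x) := by
    intro x x' hx' x'' hx''
    have hx0 : 0 < (inner ℝ (g x) (g x + g x') : ℝ) := unit_pos1 _ _ (hg1 x) (hg1 x') hx'
    have hP : 0 < (inner ℝ (g x'') (g x + g x') : ℝ) :=
      connectedComponentIn_subset {y | 0 < (inner ℝ (g y) (g x + g x') : ℝ)} x' hx''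
    have hW : g x'' ≠ -g x := by
      intro h
      rw [h, inner_neg_left] at hP
      linarith
    refine ⟨hW, ?_⟩
    have h1 : x'' ∈ connectedComponentIn {y | 0 < (inner ℝ (g y) (g x + g x'') : ℝ)} x ↔
        x'' ∈ connectedComponentIn {y | 0 < (inner ℝ (g y) (g x + g x') : ℝ)} x := by
      have e1 := unit_pos1 _ _ (hg1 x) (hg1 x'') hW
      have e2 := unit_pos2 _ _ (hg1 x) (hg1 x'') hW
      exact ⟨hA x x'' _ _ e1 e2 hx0 hP, hA x x'' _ _ hx0 hP e1 e2⟩
    rw [h1]
    have h2 := connectedComponentIn_eq hx''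
    constructor
    · intro h
      have h3 := connectedComponentIn_eq h
      rw [h3, ← h2]
      exact mem_connectedComponentIn (unit_pos2 _ _ (hg1 x) (hg1 x') hx')
    · intro h
      have h3 := connectedComponentIn_eq h
      rw [h3]
      exact hx''
  -- all points are related
  have hall : ∀ x x' : M, g x' ≠ -g x →
      x' ∈ connectedComponentIn {y | 0 < (inner ℝ (g y) (g x + g x') : ℝ)} x := by
    intro x
    have hW : IsPreconnected (g ⁻¹' {-g x})ᶜ := hAFC n hn M _ (hfin _)
    have hu : IsOpen {x' | g x' ≠ -g x ∧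
        x' ∈ connectedComponentIn {y | 0 < (inner ℝ (g y) (g x + g x') : ℝ)} x} := by
      rw [isOpen_iff_mem_nhds]
      rintro x' ⟨hx', hR⟩
      refine mem_of_superset ((hopen (g x + g x')).connectedComponentIn.mem_nhds
        (mem_connectedComponentIn (unit_pos2 _ _ (hg1 x) (hg1 x') hx'))) ?_
      intro x'' hx''
      obtain ⟨h1, h2⟩ := hloc x x' hx' x'' hx''
      exact ⟨h1, h2.2 hR⟩
    have hv : IsOpen {x' | g x' ≠ -g x ∧
        x' ∉ connectedComponentIn {y | 0 < (inner ℝ (g y) (g x + g x') : ℝ)} x} := by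
      rw [isOpen_iff_mem_nhds]
      rintro x' ⟨hx', hR⟩
      refine mem_of_superset ((hopen (g x + g x')).connectedComponentIn.mem_nhds
        (mem_connectedComponentIn (unit_pos2 _ _ (hg1 x) (hg1 x') hx'))) ?_
      intro x'' hx''
      obtain ⟨h1, h2⟩ := hloc x x' hx' x'' hx''
      exact ⟨h1, fun h => hR (h2.1 h)⟩
    have hxx : g x ≠ -g x := by
      intro h
      have h1 : g x = 0 := by
        have h2 : (2 : ℝ) • g x = 0 := by
          rw [two_smul]
          nth_rewrite 1 [h]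
          exact neg_add_cancel (g x)
        exact (smul_eq_zero.1 h2).resolve_left two_ne_zero
      have h3 := hg1 x
      rw [h1, norm_zero] at h3
      exact zero_ne_one h3
    have hsub := hW.subset_left_of_subset_union hu hv
      (Set.disjoint_left.2 fun y hy hy' => hy'.2 hy.2)
      (fun y hy => by
        by_cases h : y ∈ connectedComponentIn {z | 0 < (inner ℝ (g z) (g x + g y) : ℝ)} x
        · exact Or.inl ⟨hy, h⟩
        · exact Or.inr ⟨hy, h⟩)
      ⟨x, hxx, hxx, mem_connectedComponentIn (unit_pos2 _ _ (hg1 x) (hg1 x) hxx)⟩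
    intro x' hx'
    exact (hsub (show x' ∈ (g ⁻¹' {-g x})ᶜ from hx')).2
  intro a
  refine isPreconnected_of_forall_pair fun x hx x' hx' => ?_
  have hxa : 0 < (inner ℝ (g x) a : ℝ) := hx
  have hxa' : 0 < (inner ℝ (g x') a : ℝ) := hx'
  have hne : g x' ≠ -g x := by
    intro h
    rw [h, inner_neg_left] at hxa'
    linarith
  refine ⟨connectedComponentIn {y | 0 < (inner ℝ (g y) a : ℝ)} x, connectedComponentIn_subset _ _,
    mem_connectedComponentIn hx, ?_, isPreconnected_connectedComponentIn⟩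
  exact hA x x' _ a (unit_pos1 _ _ (hg1 x) (hg1 x') hne) (unit_pos2 _ _ (hg1 x) (hg1 x') hne)
    hxa hxa' (hall x x' hne)

end Helper78.HSF
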