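import Pool.Agent.Helper35.HSF.StF

/-!
# Project HSF (MP_925021_gt), module FAB: area bounds, the Lyapunov function is bounded below
-/

set_option autoImplicit false

namespace Helper78.HSF

open Helper35.HSF Helper35.MS Helper35.PI Helper35.PI2 Helper32.CL
open scoped ContDiff Manifold Topology
open Set Filter MeasureTheory

private theorem slice {M : Type} [TopologicalSpace M] {V : Type} [TopologicalSpace V] {J : Set ℝ}
    {g : M → ℝ → V} (h : ContinuousOn (fun z : M × ℝ => g z.1 z.2) (univ ×ˢ J)) {t : ℝ}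
    (ht : t ∈ J) : Continuous (fun q => g q t) := by
  have h1 : Continuous (fun q : M => (q, t)) := by fun_prop
  exact h.comp_continuous h1 fun q => ⟨mem_univ q, ht⟩

section

variable {n : ℕ} {M : Type} [TopologicalSpace M] [T2Space M]
    [CompactSpace M] [Nonempty M] [MeasurableSpace M] [BorelSpace M] [ChartedSpace (EE n) M]
    [IsManifold (𝓡 n) ∞ M] {T : ℝ} {F ν : M → ℝ → EE (n + 2)} {ts ε : ℝ} {x : EE (n + 2)}
    {C α : ℝ} {c : ℕ → M} {χ : ℕ → M → ℝ}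

omit [T2Space M] [CompactSpace M] [Nonempty M] [MeasurableSpace M] [BorelSpace M]
  [IsManifold (𝓡 n) ∞ M] in
private theorem mem_J (h : FDx n T F ν ts ε x C α) {t : ℝ} (ht : t ∈ Ico ts T) : t ∈ Ioo 0 T :=
  ⟨lt_of_lt_of_le h.d.ts0.1 ht.1, ht.2⟩

omit [Nonempty M] in
private theorem integ (hMUJ : StMUJ) (h : FDx n T F ν ts ε x C α) (hpu : PU n c χ) {t : ℝ}
    (ht : t ∈ Ico ts T) {g : M → ℝ} (hg : Continuous g) : Integrable g (muM n F c χ t) := by
  obtain ⟨s, -, h1⟩ := hMUJ n (n + 2) M (Ioo 0 T) F c χ ⟨h.d.fl.mcf.toIsImmJ, hpu⟩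
  exact ((h1 t (mem_J h ht)).2.2 g hg).1

/-- Lower bound of the area. -/
private theorem area_low (hHTR : StHTR) (hMUJ : StMUJ) {Cn : ℝ} (hCn : 0 < Cn)
    (hMV : MVC n Cn) (h : FDx n T F ν ts ε x C α) (hpu : PU n c χ) {t : ℝ} (ht : t ∈ Ico ts T) :
    1 ≤ Cn * ((T - t) / 2) ^ (-(n : ℝ) / 2) * arN n F c χ t := by
  obtain ⟨p⟩ := (inferInstance : Nonempty M)
  have htJ := mem_J h ht
  have hs : 0 < T - t := sub_pos.2 ht.2
  have hone : SmJ n (Ioo 0 T) (fun (_ : M) (_ : ℝ) => (1 : ℝ)) := contMDiffOn_const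
  have hheat := (hHTR n (n + 2) M (Ioo 0 T) F h.d.fl.mcf.toIsImmJ _ _ hone hone).2.2.2
    (fun _ => (1 : ℝ)) contDiffOn_const
  have h1 := hMV (n + 2) M (Ioo 0 T) F c χ ⟨h.d.fl.mcf, hpu⟩ (fun _ _ => 1) 0 t (t + (T - t) / 2)
    hone le_rfl (by linarith) (fun r hr => ⟨lt_of_lt_of_le htJ.1 hr.1, by
      have := hr.2
      linarith [ht.2]⟩) (fun _ _ _ => zero_le_one)
    (fun q r hr => by
      have h2 := (hheat.2 q r ⟨lt_of_lt_of_le htJ.1 hr.1, by
        have := hr.2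
        linarith [ht.2]⟩).2
      rw [h2]
      simp) p
  have h3 : t + (T - t) / 2 - t = (T - t) / 2 := by ring
  rw [h3, zero_mul, Real.exp_zero, mul_one] at h1
  have hpos : 0 < Cn * ((T - t) / 2) ^ (-(n : ℝ) / 2) :=
    mul_pos hCn (Real.rpow_pos_of_pos (by linarith) _)
  refine le_trans h1 (mul_le_mul_of_nonneg_left ?_ hpos.le)
  have hF : Continuous (fun q => F q t) := slice h.d.fl.mcf.smooth.continuousOn htJ
  have h4 : arN n F c χ t = ∫ _, (1 : ℝ) ∂muM n F c χ t := by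
    rw [integral_const, smul_eq_mul, mul_one]
    rfl
  rw [h4]
  refine integral_mono (integ hMUJ h hpu ht ?_) (integ hMUJ h hpu ht continuous_const) fun q => ?_
  · fun_prop
  · simp only [one_mul]
    rw [Real.exp_le_one_iff]
    have : 0 ≤ ‖F q t - F p (t + (T - t) / 2)‖ ^ 2 / (8 * ((T - t) / 2)) := by positivity
    linarith

omit [Nonempty M] in
/-- The upper bound of `∫⟨ν,x⟩`. -/
private theorem wi_up (hMUJ : StMUJ) (h : FDx n T F ν ts ε x C α) (hpu : PU n c χ) {t : ℝ}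
    (ht : t ∈ Ico ts T) :
    wiN n F ν c χ x t ≤ C * Real.sqrt (T - t) * arN n F c χ t := by
  have htJ := mem_J h ht
  have hν : Continuous (fun q => ν q t) := slice h.d.fl.sν.continuousOn htJ
  have h4 : C * Real.sqrt (T - t) * arN n F c χ t =
      ∫ _, C * Real.sqrt (T - t) ∂muM n F c χ t := by
    rw [integral_const, smul_eq_mul, mul_comm]
    rfl
  rw [h4]
  unfold wiN
  refine integral_mono (integ hMUJ h hpu ht ?_) (integ hMUJ h hpu ht continuous_const) fun q => ?_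
  · fun_prop
  · have h5 : (inner ℝ (ν q t) x : ℝ) = inner ℝ (ν q t) (x - F q t) := by
      rw [inner_sub_right, real_inner_comm (F q t) (ν q t), h.d.fl.Fν q t htJ, sub_zero]
    have h6 : (inner ℝ (ν q t) (x - F q t) : ℝ) ≤ ‖ν q t‖ * ‖x - F q t‖ := real_inner_le_norm _ _
    rw [h.d.fl.nν q t htJ, one_mul, norm_sub_rev] at h6
    simp only
    rw [h5]
    exact h6.trans (h.li t ht q)

end

/-- The elementary part. -/
private theorem bounds (n : ℕ) (Cn C K' s a W L : ℝ) (hCn : 0 < Cn) (hC : 1 ≤ C)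
    (hs : 0 < s) (ha : 0 < a) (hW : 0 < W) (h1 : 1 ≤ Cn * (s / 2) ^ (-(n : ℝ) / 2) * a)
    (h2 : W ≤ C * Real.sqrt s * a) (hL : L = (n + 1) * Real.log a - n * Real.log W)
    (h3 : L ≤ K') :
    s ^ ((n : ℝ) / 2) ≤ (Cn * 2 ^ ((n : ℝ) / 2)) * a ∧
    a ≤ Real.exp (n * Real.log C + K') * s ^ ((n : ℝ) / 2) ∧
    -(n * Real.log C + Real.log (Cn * 2 ^ ((n : ℝ) / 2))) ≤ L := by
  have hsn : 0 < s ^ ((n : ℝ) / 2) := Real.rpow_pos_of_pos hs _
  have h2n : (0 : ℝ) < 2 ^ ((n : ℝ) / 2) := Real.rpow_pos_of_pos two_pos _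
  have hlow : s ^ ((n : ℝ) / 2) ≤ (Cn * 2 ^ ((n : ℝ) / 2)) * a := by
    have e1 : (s / 2) ^ (-(n : ℝ) / 2) = 2 ^ ((n : ℝ) / 2) / s ^ ((n : ℝ) / 2) := by
      rw [Real.div_rpow hs.le two_pos.le, neg_div, Real.rpow_neg hs.le, Real.rpow_neg two_pos.le]
      field_simp
    rw [e1] at h1
    have e2 : Cn * (2 ^ ((n : ℝ) / 2) / s ^ ((n : ℝ) / 2)) * a =
        (Cn * 2 ^ ((n : ℝ) / 2)) * a / s ^ ((n : ℝ) / 2) := by ring
    rw [e2, one_le_div hsn] at h1
    exact h1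
  have hC0 : 0 < C := lt_of_lt_of_le one_pos hC
  have hlogW : Real.log W ≤ Real.log C + 1 / 2 * Real.log s + Real.log a := by
    have e3 := Real.log_le_log hW h2
    rw [Real.log_mul (mul_pos hC0 (Real.sqrt_pos.2 hs)).ne' ha.ne',
      Real.log_mul hC0.ne' (Real.sqrt_pos.2 hs).ne', Real.log_sqrt hs.le] at e3
    linarith
  have hn0 : (0 : ℝ) ≤ n := Nat.cast_nonneg n
  have hlW : (n : ℝ) * Real.log W ≤ n * (Real.log C + 1 / 2 * Real.log s + Real.log a) :=
    mul_le_mul_of_nonneg_left hlogW hn0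
  refine ⟨hlow, ?_, ?_⟩
  · have e4 : Real.log a ≤ (n * Real.log C + K') + (n : ℝ) / 2 * Real.log s := by
      rw [hL] at h3
      linarith
    have e5 : Real.exp (n * Real.log C + K') * s ^ ((n : ℝ) / 2) =
        Real.exp ((n * Real.log C + K') + (n : ℝ) / 2 * Real.log s) := by
      rw [Real.exp_add (n * Real.log C + K'), Real.rpow_def_of_pos hs,
        mul_comm ((n : ℝ) / 2) (Real.log s)]
    rw [e5, ← Real.exp_log ha]
    exact Real.exp_le_exp.2 e4
  · have e6 := Real.log_le_log hsn hlow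
    rw [Real.log_rpow hs, Real.log_mul (mul_pos hCn h2n).ne' ha.ne'] at e6
    rw [hL]
    linarith

/-- The Lyapunov function is bounded above. -/
private theorem ly_up (L : ℝ → ℝ) (ts T α K : ℝ) (hts : ts < T) (hα : 0 < α) (hK : 0 < K)
    (h : ∀ t ∈ Ico ts T, ∃ D : ℝ, HasDerivAt L D t ∧ D ≤ K * (T - t) ^ (α - 1)) :
    ∀ t ∈ Ico ts T, L t ≤ L ts + K / α * (T - ts) ^ α := by
  have hd : ∀ t ∈ Ico ts T, ∃ D : ℝ,
      HasDerivAt (fun t => L t + K / α * (T - t) ^ α) D t ∧ D ≤ 0 := by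
    intro t ht
    obtain ⟨D, hD, hD'⟩ := h t ht
    have hs : 0 < T - t := sub_pos.2 ht.2
    have h1 : HasDerivAt (fun t : ℝ => T - t) (-1) t := by
      simpa using (hasDerivAt_id t).const_sub T
    have h2 := h1.rpow_const (p := α) (Or.inl hs.ne')
    have h3 := hD.add (h2.const_mul (K / α))
    refine ⟨_, h3, ?_⟩
    have h4 : K / α * (-1 * α * (T - t) ^ (α - 1)) = -(K * (T - t) ^ (α - 1)) := by
      field_simp
    rw [h4]
    linarith
  have hanti : AntitoneOn (fun t => L t + K / α * (T - t) ^ α) (Ico ts T) := by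
    refine antitoneOn_of_deriv_nonpos (convex_Ico ts T) (fun t ht => ?_) (fun t ht => ?_)
      (fun t ht => ?_)
    · obtain ⟨D, hD, -⟩ := hd t ht
      exact hD.continuousAt.continuousWithinAt
    · obtain ⟨D, hD, -⟩ := hd t (interior_subset ht)
      exact hD.differentiableAt.differentiableWithinAt
    · obtain ⟨D, hD, hD'⟩ := hd t (interior_subset ht)
      rw [hD.deriv]
      exact hD'
  intro t ht
  have h1 := hanti ⟨le_rfl, hts⟩ ht ht.1
  simp only at h1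
  have h2 : 0 ≤ K / α * (T - t) ^ α :=
    mul_nonneg (div_nonneg hK.le hα.le) (Real.rpow_nonneg (sub_nonneg.2 ht.2.le) _)
  linarith

theorem hFAB (hFLD : StFLD) (hMVN : StMVN) (_hFII : StFII) (hHTR : StHTR) (hMUJ : StMUJ) :
    StFAB := by
  intro n hn M _ _ _ _ _ _ _ _ T F ν ts ε x C α c χ h hpu
  obtain ⟨Cn, hCn, hMV⟩ := hMVN n (by omega)
  obtain ⟨K, hK, hfl⟩ := hFLD n hn M T F ν ts ε x C α c χ h hpu
  have hts : ts < T := h.d.ts0.2
  have hup := ly_up (lyN n F ν c χ x) ts T α K hts h.α0 hK (fun t ht => by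
    obtain ⟨-, -, hv, D, hD, hD'⟩ := hfl t ht
    refine ⟨D, hD, hD'.trans ?_⟩
    have : 0 ≤ ((n : ℝ) + 1) * vrN n F ν c χ t := mul_nonneg (by positivity) hv
    linarith)
  set K' : ℝ := lyN n F ν c χ x ts + K / α * (T - ts) ^ α with hK'
  have h2n : (0 : ℝ) < 2 ^ ((n : ℝ) / 2) := Real.rpow_pos_of_pos two_pos _
  have hA : 0 < Cn * 2 ^ ((n : ℝ) / 2) := mul_pos hCn h2n
  have hB : 0 < Real.exp (n * Real.log C + K') := Real.exp_pos _
  have hD : 0 ≤ |n * Real.log C + Real.log (Cn * 2 ^ ((n : ℝ) / 2))| := abs_nonneg _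
  refine ⟨Cn * 2 ^ ((n : ℝ) / 2) + Real.exp (n * Real.log C + K') +
    |n * Real.log C + Real.log (Cn * 2 ^ ((n : ℝ) / 2))|, by linarith, fun t ht => ?_⟩
  obtain ⟨hW, ha, -, -⟩ := hfl t ht
  have hs : 0 < T - t := sub_pos.2 ht.2
  obtain ⟨b1, b2, b3⟩ := bounds n Cn C K' (T - t) (arN n F c χ t) (wiN n F ν c χ x t)
    (lyN n F ν c χ x t) hCn h.C1 hs ha hW (area_low hHTR hMUJ hCn hMV h hpu ht)
    (wi_up hMUJ h hpu ht) rfl (hup t ht)
  have hsn : 0 < (T - t) ^ ((n : ℝ) / 2) := Real.rpow_pos_of_pos hs _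
  refine ⟨b1.trans (mul_le_mul_of_nonneg_right ?_ ha.le),
    b2.trans (mul_le_mul_of_nonneg_right ?_ hsn.le), ?_⟩
  · linarith
  · linarith
  · have h5 := le_abs_self (n * Real.log C + Real.log (Cn * 2 ^ ((n : ℝ) / 2)))
    linarith

end Helper78.HSF
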