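import Pool.Agent.Helper35.HSF.StB

/-!
# Project HSF (MP_925021_gt), module INO: injectivity is an open condition
-/

set_option autoImplicit false

namespace Helper78.HSF

open Helper35.HSF Helper35.MS Helper35.PI Helper35.PI2 Helper32.CL
open scoped ContDiff Manifold Topology
open Set Filter

/-- Linear maps which are injective on the coordinate vectors. -/
private theorem ker_of_li {n N : ℕ} (A : EE n →L[ℝ] EE N)
    (hli : LinearIndependent ℝ (fun i : Fin n => A (ee i))) :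
    LinearMap.ker (A : EE n →ₗ[ℝ] EE N) = ⊥ := by
  rw [LinearMap.ker_eq_bot']
  intro v hv
  rw [Fintype.linearIndependent_iff] at hli
  have h2 : v = ∑ i, v i • (ee i : EE n) := by
    ext j
    simp [ee, Pi.single_apply]
  have h3 : ∑ i, v i • A (ee i) = 0 := by
    have h4 : A v = 0 := hv
    rw [h2, map_sum] at h4
    simpa only [map_smul] using h4
  have h5 := hli (fun i => v i) h3
  ext i
  exact h5 i

private theorem loc_inj {n N : ℕ} (f : EE n × ℝ → EE N) (a : EE n) (t₀ : ℝ)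
    (hf : ContDiffAt ℝ ∞ f (a, t₀))
    (hli : LinearIndependent ℝ (fun i : Fin n => fderiv ℝ (fun y => f (y, t₀)) a (ee i))) :
    ∃ r > 0, ∀ y ∈ Metric.ball a r, ∀ y' ∈ Metric.ball a r, ∀ t, |t - t₀| < r →
      f (y, t) = f (y', t) → y = y' := by
  have hs : HasStrictFDerivAt f (fderiv ℝ f (a, t₀)) (a, t₀) :=
    hf.hasStrictFDerivAt (by simp)
  have hA : fderiv ℝ (fun y => f (y, t₀)) a =
      (fderiv ℝ f (a, t₀)).comp (ContinuousLinearMap.inl ℝ (EE n) ℝ) := by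
    have h1 : HasFDerivAt (fun y : EE n => (y, t₀)) (ContinuousLinearMap.inl ℝ (EE n) ℝ) a :=
      hasFDerivAt_prodMk_left a t₀
    exact (hs.hasFDerivAt.comp a h1).fderiv
  rw [hA] at hli
  obtain ⟨K, hK, hanti⟩ := LinearMap.exists_antilipschitzWith _ (ker_of_li _ hli)
  have hK' : (0 : ℝ) < K := hK
  have hev := hs.isLittleO.def (show (0 : ℝ) < 1 / (2 * K) by positivity)
  obtain ⟨r, hr, hball⟩ := Metric.eventually_nhds_iff.1 hev
  refine ⟨r, hr, fun y hy y' hy' t ht he => ?_⟩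
  rw [Metric.mem_ball] at hy hy'
  have h1 := @hball ((y, t), (y', t)) (by
    rw [Prod.dist_eq, Prod.dist_eq, Prod.dist_eq]
    have h0 : dist t t₀ < r := by rw [Real.dist_eq]; exact ht
    exact max_lt (max_lt hy h0) (max_lt hy' h0))
  simp only at h1
  have h2 : ((y, t) - (y', t) : EE n × ℝ) = (y - y', 0) := by
    rw [Prod.mk_sub_mk, sub_self]
  rw [h2, he, sub_self, zero_sub, norm_neg] at h1
  have h3 : ‖((y - y', 0) : EE n × ℝ)‖ = ‖y - y'‖ := by
    rw [Prod.norm_mk, norm_zero]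
    exact max_eq_left (norm_nonneg _)
  rw [h3] at h1
  have h4 := hanti.le_mul_dist y y'
  rw [dist_eq_norm, dist_eq_norm] at h4
  have h5 : ((fderiv ℝ f (a, t₀)).comp (ContinuousLinearMap.inl ℝ (EE n) ℝ) :
      EE n →ₗ[ℝ] EE N) y - ((fderiv ℝ f (a, t₀)).comp (ContinuousLinearMap.inl ℝ (EE n) ℝ) :
      EE n →ₗ[ℝ] EE N) y' = fderiv ℝ f (a, t₀) (y - y', 0) := by
    rw [← map_sub]
    rfl
  rw [h5] at h4
  have h6 : ‖y - y'‖ ≤ 1 / 2 * ‖y - y'‖ := by
    calc ‖y - y'‖ ≤ K * ‖fderiv ℝ f (a, t₀) (y - y', 0)‖ := h4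
      _ ≤ K * (1 / (2 * K) * ‖y - y'‖) := mul_le_mul_of_nonneg_left h1 hK'.le
      _ = 1 / 2 * ‖y - y'‖ := by field_simp
  have h7 : ‖y - y'‖ = 0 := by
    have := norm_nonneg (y - y')
    linarith
  exact sub_eq_zero.1 (norm_eq_zero.1 h7)

private theorem nbhd {n N : ℕ} {M : Type} [TopologicalSpace M]
    [ChartedSpace (EE n) M] [IsManifold (𝓡 n) ∞ M] (hI2J : StI2J) (J : Set ℝ) (F : M → ℝ → EE N)
    (hF : IsImmJ (n := n) J F) (t₀ : ℝ) (ht₀ : t₀ ∈ J) (q : M) :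
    ∃ W : Set M, IsOpen W ∧ q ∈ W ∧ ∀ᶠ t in 𝓝 t₀, InjOn (fun x => F x t) W := by
  have h1 := hI2J n N M J F hF q
  have ha : chartAt (EE n) q q ∈ (chartAt (EE n) q).target := mem_chart_target (EE n) q
  have h2 : ContDiffAt ℝ ∞ (fun z : EE n × ℝ => F ((chartAt (EE n) q).symm z.1) z.2)
      (chartAt (EE n) q q, t₀) :=
    h1.contDiffAt (prod_mem_nhds ((chartAt (EE n) q).open_target.mem_nhds ha)
      (hF.op.mem_nhds ht₀))
  obtain ⟨r, hr, hinj⟩ := loc_inj _ _ t₀ h2 (hF.imm q t₀ ht₀)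
  refine ⟨(chartAt (EE n) q).source ∩ chartAt (EE n) q ⁻¹' Metric.ball (chartAt (EE n) q q) r,
    (chartAt (EE n) q).isOpen_inter_preimage Metric.isOpen_ball,
    ⟨mem_chart_source (EE n) q, Metric.mem_ball_self hr⟩, ?_⟩
  refine Metric.eventually_nhds_iff.2 ⟨r, hr, fun t ht => ?_⟩
  rintro x ⟨hx, hx'⟩ y ⟨hy, hy'⟩ he
  rw [Real.dist_eq] at ht
  have h3 := hinj _ hx' _ hy' t ht
  simp only [(chartAt (EE n) q).left_inv hx, (chartAt (EE n) q).left_inv hy] at h3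
  exact (chartAt (EE n) q).injOn hx hy (h3 he)

private theorem part1 {n N : ℕ} {M : Type} [TopologicalSpace M] [CompactSpace M]
    [ChartedSpace (EE n) M] [IsManifold (𝓡 n) ∞ M] (hI2J : StI2J) (J : Set ℝ) (F : M → ℝ → EE N)
    (hF : IsImmJ (n := n) J F) (t₀ : ℝ) (ht₀ : t₀ ∈ J) :
    ∃ U : Set (M × M), IsOpen U ∧ (∀ x, (x, x) ∈ U) ∧
      ∀ᶠ t in 𝓝 t₀, ∀ p ∈ U, F p.1 t = F p.2 t → p.1 = p.2 := by
  choose W hW hq hinj using nbhd (n := n) hI2J J F hF t₀ ht₀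
  obtain ⟨s, -, hs⟩ := (isCompact_univ (X := M)).elim_nhds_subcover W
    (fun q _ => (hW q).mem_nhds (hq q))
  refine ⟨⋃ q ∈ s, W q ×ˢ W q, ?_, fun x => ?_, ?_⟩
  · exact isOpen_biUnion fun q _ => (hW q).prod (hW q)
  · obtain ⟨q, hqs, hx⟩ := mem_iUnion₂.1 (hs (mem_univ x))
    exact mem_iUnion₂.2 ⟨q, hqs, hx, hx⟩
  · have h1 : ∀ᶠ t in 𝓝 t₀, ∀ q ∈ s, InjOn (fun x => F x t) (W q) :=
      (Filter.eventually_all_finset s).2 fun q _ => hinj q
    filter_upwards [h1] with t ht p hp he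
    obtain ⟨q, hqs, hx⟩ := mem_iUnion₂.1 hp
    exact ht q hqs hx.1 hx.2 he

theorem hINO (hI2J : StI2J) (_hI3J : StI3J) (_hI4J : StI4J) : StINO := by
  intro n N M _ _ _ _ _ J F hF t₀ ht₀
  obtain ⟨U, hU, hdiag, hev⟩ := part1 (n := n) hI2J J F hF t₀ ht₀
  constructor
  · obtain ⟨δ, hδ, hball⟩ := Metric.eventually_nhds_iff.1 hev
    exact ⟨U, hU, hdiag, δ, hδ, fun t _ ht => hball (by rw [Real.dist_eq]; exact ht)⟩
  · intro hinj
    have hcont : ContinuousOn (fun z : M × ℝ => F z.1 z.2) (univ ×ˢ J) := hF.smooth.continuousOn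
    have hca : ∀ x : M, ContinuousAt (fun z : M × ℝ => F z.1 z.2) (x, t₀) := fun x =>
      hcont.continuousAt (prod_mem_nhds univ_mem (hF.op.mem_nhds ht₀))
    have hK : IsCompact Uᶜ := hU.isClosed_compl.isCompact
    have h1 : ∀ᶠ t in 𝓝 t₀, ∀ p ∈ Uᶜ, F p.1 t ≠ F p.2 t := by
      refine hK.eventually_forall_of_forall_eventually (P := fun t p => F p.1 t ≠ F p.2 t)
        fun p hp => ?_
      have hne : F p.1 t₀ ≠ F p.2 t₀ := by
        intro he
        have h2 : p.1 = p.2 := hinj he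
        exact hp (by
          have h3 := hdiag p.1
          have h4 : p = (p.1, p.1) := Prod.ext rfl h2.symm
          rw [h4]
          exact h3)
      have ht1 : Tendsto (fun z : ℝ × M × M => F z.2.1 z.1) (𝓝 (t₀, p)) (𝓝 (F p.1 t₀)) :=
        ContinuousAt.comp (g := fun z : M × ℝ => F z.1 z.2)
          (f := fun z : ℝ × M × M => (z.2.1, z.1)) (x := (t₀, p)) (hca p.1) (by fun_prop)
      have ht2 : Tendsto (fun z : ℝ × M × M => F z.2.2 z.1) (𝓝 (t₀, p)) (𝓝 (F p.2 t₀)) :=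
        ContinuousAt.comp (g := fun z : M × ℝ => F z.1 z.2)
          (f := fun z : ℝ × M × M => (z.2.2, z.1)) (x := (t₀, p)) (hca p.2) (by fun_prop)
      exact ((ht1.sub ht2).eventually_ne (sub_ne_zero.2 hne)).mono fun z hz => sub_ne_zero.1 hz
    filter_upwards [hev, h1] with t ht ht' x y he
    by_cases hp : (x, y) ∈ U
    · exact ht (x, y) hp he
    · exact absurd he (ht' (x, y) hp)

end Helper78.HSF
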