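import Pool.Agent.Helper35.HSF.StC

/-!
# Project HSF (MP_925021_gt), module SMF: smoothness of the geometric quantities
-/

set_option autoImplicit false

namespace Helper78.HSF

open Helper35.HSF Helper35.MS Helper35.PI Helper35.PI2 Helper32.CL
open scoped ContDiff Manifold Topology
open Set Filter

/-- Smoothness can be checked in the preferred charts. -/
private theorem lift {n : ℕ} {M : Type} [TopologicalSpace M] [ChartedSpace (EE n) M]
    [IsManifold (𝓡 n) ∞ M] {V : Type} [NormedAddCommGroup V] [NormedSpace ℝ V] (J : Set ℝ)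
    (u : M → ℝ → V)
    (h : ∀ p : M, ∀ t ∈ J, ContDiffAt ℝ ∞
      (fun z : EE n × ℝ => u ((chartAt (EE n) p).symm z.1) z.2) (chartAt (EE n) p p, t)) :
    ContMDiffOn ((𝓡 n).prod 𝓘(ℝ, ℝ)) 𝓘(ℝ, V) ∞ (fun z : M × ℝ => u z.1 z.2) (univ ×ˢ J) := by
  rintro ⟨p, t⟩ ⟨-, ht⟩
  apply ContMDiffAt.contMDiffWithinAt
  have h1 : ContMDiffAt ((𝓡 n).prod 𝓘(ℝ, ℝ)) 𝓘(ℝ, EE n × ℝ) ∞
      (fun z : M × ℝ => (chartAt (EE n) p z.1, z.2)) (p, t) := by
    refine ContMDiffAt.prodMk_space ?_ contMDiffAt_snd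
    have h2 : ContMDiffAt (𝓡 n) (𝓡 n) ∞ (chartAt (EE n) p) p :=
      contMDiffOn_chart.contMDiffAt
        ((chartAt (EE n) p).open_source.mem_nhds (mem_chart_source (EE n) p))
    exact ContMDiffAt.comp (g := chartAt (EE n) p) (f := (Prod.fst : M × ℝ → M)) (p, t) h2
      contMDiffAt_fst
  have h3 := ContMDiffAt.comp (g := fun z : EE n × ℝ => u ((chartAt (EE n) p).symm z.1) z.2)
    (f := fun z : M × ℝ => (chartAt (EE n) p z.1, z.2)) (p, t) (h p t ht).contMDiffAt h1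
  refine h3.congr_of_eventuallyEq ?_
  have h4 : (chartAt (EE n) p).source ×ˢ (univ : Set ℝ) ∈ 𝓝 (p, t) :=
    prod_mem_nhds ((chartAt (EE n) p).open_source.mem_nhds (mem_chart_source (EE n) p)) univ_mem
  filter_upwards [h4] with z hz
  simp only [Function.comp_apply, (chartAt (EE n) p).left_inv hz.1]

private theorem cdc {n : ℕ} {M : Type} [TopologicalSpace M] [ChartedSpace (EE n) M]
    {V W : Type} [NormedAddCommGroup V] [NormedSpace ℝ V] [NormedAddCommGroup W] [NormedSpace ℝ W]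
    {J : Set ℝ} {u : M → ℝ → V} (g : V → W) (hg : ContDiff ℝ ∞ g)
    (hu : ContMDiffOn ((𝓡 n).prod 𝓘(ℝ, ℝ)) 𝓘(ℝ, V) ∞ (fun z : M × ℝ => u z.1 z.2) (univ ×ˢ J)) :
    ContMDiffOn ((𝓡 n).prod 𝓘(ℝ, ℝ)) 𝓘(ℝ, W) ∞ (fun z : M × ℝ => g (u z.1 z.2)) (univ ×ˢ J) :=
  ContMDiff.comp_contMDiffOn (g := g) hg.contMDiff hu

private theorem geo {n N : ℕ} {M : Type} [TopologicalSpace M] [ChartedSpace (EE n) M]
    [IsManifold (𝓡 n) ∞ M] (hSM : Helper35.PI.StSM) (hI2J : StI2J) (hI3J : StI3J) (J : Set ℝ)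
    (F : M → ℝ → EE N) (hF : IsImmJ (n := n) J F) :
    SmV n J (HH (n := n) F) ∧ SmJ n J (AA (n := n) F) := by
  have hcd : ∀ p : M, ∀ t ∈ J, ContDiffAt ℝ ∞
      (fun z : EE n × ℝ => F ((chartAt (EE n) p).symm z.1) z.2) (chartAt (EE n) p p, t) := by
    intro p t ht
    exact (hI2J n N M J F hF p).contDiffAt
      (prod_mem_nhds ((chartAt (EE n) p).open_target.mem_nhds (mem_chart_target (EE n) p))
        (hF.op.mem_nhds ht))
  have hnh : ∀ p : M, ∀ t ∈ J, ∀ᶠ z : EE n × ℝ in 𝓝 (chartAt (EE n) p p, t),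
      z.1 ∈ (chartAt (EE n) p).target ∧ z.2 ∈ J := by
    intro p t ht
    exact prod_mem_nhds ((chartAt (EE n) p).open_target.mem_nhds (mem_chart_target (EE n) p))
        (hF.op.mem_nhds ht)
  constructor
  · refine lift J _ fun p t ht => ?_
    obtain ⟨-, -, -, -, -, -, -, h1, -, -⟩ := hSM n N _ _ (hcd p t ht) (hF.imm p t ht)
    refine h1.congr_of_eventuallyEq ?_
    filter_upwards [hnh p t ht] with z hz
    have h2 := (hI3J n N M J F hF p ((chartAt (EE n) p).symm z.1) z.2 hz.2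
      ((chartAt (EE n) p).map_target hz.1)).2.1
    rw [(chartAt (EE n) p).right_inv hz.1] at h2
    exact h2
  · refine lift J _ fun p t ht => ?_
    obtain ⟨-, -, -, -, -, -, -, -, h1, -⟩ := hSM n N _ _ (hcd p t ht) (hF.imm p t ht)
    refine h1.congr_of_eventuallyEq ?_
    filter_upwards [hnh p t ht] with z hz
    have h2 := (hI3J n N M J F hF p ((chartAt (EE n) p).symm z.1) z.2 hz.2
      ((chartAt (EE n) p).map_target hz.1)).2.2.1
    rw [(chartAt (EE n) p).right_inv hz.1] at h2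
    exact h2

private theorem time_fn {n : ℕ} {M : Type} [TopologicalSpace M] [ChartedSpace (EE n) M]
    (J : Set ℝ) (c : ℝ) (h : ∀ t ∈ J, 0 < rr n t) : SmJ n J (fun (_ : M) t => c / rr n t) := by
  have h1 : ContDiffOn ℝ ∞ (fun t : ℝ => c / rr n t) J := by
    have h2 : ContDiff ℝ ∞ (fun t : ℝ => rr n t) := by
      unfold rr
      fun_prop
    exact contDiff_const.contDiffOn.div h2.contDiffOn fun t ht => (h t ht).ne'
  exact ContMDiffOn.comp (g := fun t : ℝ => c / rr n t) (f := (Prod.snd : M × ℝ → ℝ)) (t := J)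
    h1.contMDiffOn contMDiffOn_snd fun z hz => hz.2

theorem hSMF (hSM : Helper35.PI.StSM) (hI2J : StI2J) (hI3J : StI3J) : StSMF := by
  intro n N M _ _ _ J F hF
  obtain ⟨hH, hA⟩ := geo (n := n) hSM hI2J hI3J J F hF
  have hH2 : SmJ n J (fun q t => ‖HH (n := n) F q t‖ ^ 2) :=
    cdc (n := n) (u := HH (n := n) F) (fun v : EE N => ‖v‖ ^ 2) (contDiff_norm_sq ℝ) hH
  refine ⟨hF.smooth, hH, hA, hH2, ?_, fun c => ?_, fun p => ?_, fun hr => ⟨?_, ?_⟩⟩
  · have h1 : SmJ n J (fun q t => ‖HH (n := n) F q t‖ ^ 2 / n) :=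
      cdc (n := n) (u := fun q t => ‖HH (n := n) F q t‖ ^ 2) (fun x : ℝ => x / n)
        (contDiff_id.div_const _) hH2
    exact ContMDiffOn.sub hA h1
  · exact cdc (fun v : EE N => (inner ℝ v c : ℝ))
      (contDiff_id.inner ℝ contDiff_const) hF.smooth
  · exact cdc (fun v : EE N => ‖v - p‖ ^ 2)
      ((contDiff_norm_sq ℝ).comp (contDiff_id.sub contDiff_const)) hF.smooth
  · exact ContMDiffOn.sub hH2 (time_fn J _ hr)
  · exact ContMDiffOn.sub hA (time_fn J _ hr)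

end Helper78.HSF
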